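import Pool.Agent.helper63.NU.Defs4
import Pool.Agent.helper41.NU.A1
import Pool.Agent.helper41.NU.A2

set_option autoImplicit false
set_option linter.all false

/-!
# MP_737c0a_gt, module M3b: automorphisms of `ℂP^n` and the Fubini–Study metric
-/

open MeasureTheory Filter Topology Set
open scoped ContDiff Manifold Matrix ENNReal ComplexOrder

noncomputable section

namespace Pool.Agent.helper63.NU

variable {n : ℕ}

namespace M3b

theorem mulVec_ne {A : Matrix (Fin (n + 1)) (Fin (n + 1)) ℂ} (hA : IsUnit A.det)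
    {v : E (n + 1)} (hv : v ≠ 0) : A.mulVec v ≠ 0 := by
  intro h
  apply hv
  have h1 := congrArg (A⁻¹).mulVec h
  rwa [Matrix.mulVec_mulVec, Matrix.nonsing_inv_mul A hA, Matrix.one_mulVec,
    Matrix.mulVec_zero] at h1

/-- the projective transformation of `A` -/
def T (A : Matrix (Fin (n + 1)) (Fin (n + 1)) ℂ) (hA : IsUnit A.det) (x : CP n) : CP n :=
  CP.mk (A.mulVec x.rep) (mulVec_ne hA x.rep_ne)

theorem T_mk {A : Matrix (Fin (n + 1)) (Fin (n + 1)) ℂ} (hA : IsUnit A.det)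
    (v : E (n + 1)) (hv : v ≠ 0) : T A hA (CP.mk v hv) = CP.mk (A.mulVec v) (mulVec_ne hA hv) := by
  obtain ⟨c, hc, h⟩ := CP.exists_rep v hv
  unfold T
  rw [CP.mk_eq_iff]
  refine ⟨c, hc, ?_⟩
  rw [h, Matrix.mulVec_smul]

theorem T_inv {A B : Matrix (Fin (n + 1)) (Fin (n + 1)) ℂ} (hA : IsUnit A.det) (hB : IsUnit B.det)
    (h : B * A = 1) (x : CP n) : T B hB (T A hA x) = x := by
  conv_lhs => rw [← CP.mk_rep x]
  rw [T_mk, T_mk]
  conv_rhs => rw [← CP.mk_rep x]
  congr 1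
  rw [Matrix.mulVec_mulVec, h, Matrix.one_mulVec]

theorem continuous_T {A : Matrix (Fin (n + 1)) (Fin (n + 1)) ℂ} (hA : IsUnit A.det) :
    Continuous (T A hA) := by
  rw [CP.isQuotientMap_mk.continuous_iff]
  have h1 : Continuous fun v : {v : E (n + 1) // v ≠ 0} =>
      (⟨A.mulVec v.1, mulVec_ne hA v.2⟩ : {v : E (n + 1) // v ≠ 0}) :=
    Continuous.subtype_mk ((Continuous.matrix_mulVec continuous_const continuous_subtype_val)) _
  have h2 := CP.continuous_mk.comp h1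
  refine h2.congr fun v => ?_
  exact (T_mk hA v.1 v.2).symm

theorem contDiff_ins' {𝕜 : Type*} [NontriviallyNormedField 𝕜] [NormedAlgebra 𝕜 ℂ]
    {m : WithTop ℕ∞} (i : Fin (n + 1)) : ContDiff 𝕜 m (fun y : E n => ins i y) :=
  CP.contDiff_ins i

theorem contDiff_mulVec_ins {m : WithTop ℕ∞} (A : Matrix (Fin (n + 1)) (Fin (n + 1)) ℂ)
    (i a : Fin (n + 1)) : ContDiff ℂ m (fun y : E n => (A.mulVec (ins i y)) a) := by
  simp only [Matrix.mulVec, dotProduct]
  exact ContDiff.sum fun b _ => contDiff_const.mul ((contDiff_pi.1 (contDiff_ins' (𝕜 := ℂ) i)) b)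

theorem contDiffOn_pmap {m : WithTop ℕ∞} (A : Matrix (Fin (n + 1)) (Fin (n + 1)) ℂ)
    (i i' : Fin (n + 1)) : ContDiffOn ℂ m (pmap A i i') {y | (A.mulVec (ins i y)) i' ≠ 0} := by
  rw [contDiffOn_pi]
  intro j
  exact ContDiffOn.div (contDiff_mulVec_ins A i _).contDiffOn
    (contDiff_mulVec_ins A i _).contDiffOn fun y hy => hy

theorem isOpen_dom (A : Matrix (Fin (n + 1)) (Fin (n + 1)) ℂ)
    (i i' : Fin (n + 1)) : IsOpen {y : E n | (A.mulVec (ins i y)) i' ≠ 0} :=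
  isOpen_ne_fun (contDiff_mulVec_ins (m := 0) A i i').continuous continuous_const

theorem contDiffAt_pmap {m : WithTop ℕ∞} (A : Matrix (Fin (n + 1)) (Fin (n + 1)) ℂ)
    (i i' : Fin (n + 1)) {y : E n} (hy : (A.mulVec (ins i y)) i' ≠ 0) :
    ContDiffAt ℂ m (pmap A i i') y :=
  (contDiffOn_pmap A i i').contDiffAt ((isOpen_dom A i i').mem_nhds hy)

theorem T_chart_symm {A : Matrix (Fin (n + 1)) (Fin (n + 1)) ℂ} (hA : IsUnit A.det)
    (i : Fin (n + 1)) (y : E n) : T A hA ((CP.chart i).symm y) =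
      CP.mk (A.mulVec (ins i y)) (mulVec_ne hA (CP.ins_ne i y)) := by
  rw [CP.chart_symm, T_mk]
  rfl

theorem T_mem {A : Matrix (Fin (n + 1)) (Fin (n + 1)) ℂ} (hA : IsUnit A.det)
    (i i' : Fin (n + 1)) (y : E n) : T A hA ((CP.chart i).symm y) ∈ (CP.chart i').source ↔
      (A.mulVec (ins i y)) i' ≠ 0 := by
  rw [T_chart_symm, CP.mem_source_chart]

theorem chart_T {A : Matrix (Fin (n + 1)) (Fin (n + 1)) ℂ} (hA : IsUnit A.det)
    (i i' : Fin (n + 1)) (y : E n) (h : (A.mulVec (ins i y)) i' ≠ 0) :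
    CP.chart i' (T A hA ((CP.chart i).symm y)) = pmap A i i' y := by
  funext j
  rw [T_chart_symm, CP.chart_mk i' _ _ h]
  rfl

theorem contMDiff_T {A : Matrix (Fin (n + 1)) (Fin (n + 1)) ℂ} (hA : IsUnit A.det)
    {m : WithTop ℕ∞} : ContMDiff 𝓘(ℂ, E n) 𝓘(ℂ, E n) m (T A hA) := by
  intro x
  rw [contMDiffAt_iff]
  refine ⟨(continuous_T hA).continuousAt, ?_⟩
  obtain ⟨i, hi⟩ : ∃ i, CP.chart i = chartAt (E n) x := (chart_mem_atlas (E n) x)
  obtain ⟨i', hi'⟩ : ∃ i', CP.chart i' = chartAt (E n) (T A hA x) :=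
    (chart_mem_atlas (E n) (T A hA x))
  have hx : x ∈ (CP.chart i).source := by rw [hi]; exact mem_chart_source (E n) x
  have hx' : T A hA x ∈ (CP.chart i').source := by rw [hi']; exact mem_chart_source (E n) _
  have e1 : (extChartAt 𝓘(ℂ, E n) (T A hA x) ∘ T A hA ∘ (extChartAt 𝓘(ℂ, E n) x).symm)
      = fun y => CP.chart i' (T A hA ((CP.chart i).symm y)) := by
    funext y
    simp only [Function.comp_apply, mfld_simps, hi, hi']
  have e2 : extChartAt 𝓘(ℂ, E n) x x = CP.chart i x := by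
    simp only [mfld_simps, hi]
  rw [e1, e2]
  refine ContDiffAt.contDiffWithinAt ?_
  have hy : (A.mulVec (ins i (CP.chart i x))) i' ≠ 0 := by
    rw [← T_mem hA, (CP.chart i).left_inv hx]
    exact hx'
  refine (contDiffAt_pmap A i i' hy).congr_of_eventuallyEq ?_
  filter_upwards [(isOpen_dom A i i').mem_nhds hy] with z hz
  exact chart_T hA i i' z hz

end M3b

/-- the automorphism of `ℂP^n` given by an invertible matrix -/
theorem exists_auto {A : Matrix (Fin (n + 1)) (Fin (n + 1)) ℂ} (hA : IsUnit A.det) :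
    ∃ T : Diffeomorph 𝓘(ℂ, E n) 𝓘(ℂ, E n) (CP n) (CP n) ω, ∀ i i' y,
      (T ((CP.chart i).symm y) ∈ (CP.chart i').source ↔ (A.mulVec (ins i y)) i' ≠ 0) ∧
      ((A.mulVec (ins i y)) i' ≠ 0 → CP.chart i' (T ((CP.chart i).symm y)) = pmap A i i' y) := by
  have hB : IsUnit (A⁻¹).det := Matrix.isUnit_nonsing_inv_det A hA
  refine ⟨{ toFun := M3b.T A hA
            invFun := M3b.T A⁻¹ hB
            left_inv := M3b.T_inv hA hB (Matrix.nonsing_inv_mul A hA)
            right_inv := M3b.T_inv hB hA (Matrix.mul_nonsing_inv A hA)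
            contMDiff_toFun := M3b.contMDiff_T hA
            contMDiff_invFun := M3b.contMDiff_T hB }, fun i i' y => ⟨?_, ?_⟩⟩
  · exact M3b.T_mem hA i i' y
  · exact M3b.chart_T hA i i' y

/-- it is an isometry from the metric of the weight `log |A z|²` to the Fubini–Study metric -/
theorem lev_pmap {A : Matrix (Fin (n + 1)) (Fin (n + 1)) ℂ} (hA : IsUnit A.det)
    {i i' : Fin (n + 1)} {y : E n} (h : (A.mulVec (ins i y)) i' ≠ 0) (v w : E n) :
    ∑ j, ∑ k, lev (fun z => Real.log (∑ a, ‖(A.mulVec (ins i z)) a‖ ^ 2)) y j k * v j *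
        (starRingEnd ℂ) (w k)
      = ∑ j, ∑ k, hFS n (CP.chart i') (pmap A i i' y) j k *
        (fderiv ℂ (pmap A i i') y v) j * (starRingEnd ℂ) ((fderiv ℂ (pmap A i i') y w) k) := by
  have hτ : AnalyticAt ℂ (pmap A i i') y :=
    (M3b.contDiffAt_pmap (m := ω) A i i' h).analyticAt
  have hJ : AnalyticAt ℂ (fun z => (A.mulVec (ins i z)) i') y :=
    ((M3b.contDiff_mulVec_ins (m := ω) A i i').contDiffAt).analyticAt
  have hψ : ContDiff ℝ 2 (fun z : E n => Real.log (1 + ∑ j, ‖z j‖ ^ 2)) := by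
    refine ContDiff.log ?_ ?_
    · refine contDiff_const.add (ContDiff.sum fun j _ => ?_)
      exact (contDiff_apply ℝ ℂ j).norm_sq ℝ
    · intro z
      positivity
  have hc : (fun z => Real.log (∑ a, ‖(A.mulVec (ins i z)) a‖ ^ 2)) =ᶠ[𝓝 y]
      fun z => (fun z : E n => Real.log (1 + ∑ j, ‖z j‖ ^ 2)) (pmap A i i' z) +
        Real.log (‖(A.mulVec (ins i z)) i'‖ ^ 2) := by
    filter_upwards [(M3b.isOpen_dom A i i').mem_nhds h] with z hz
    have hz' : (A.mulVec (ins i z)) i' ≠ 0 := hz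
    have h0 : 0 < ‖(A.mulVec (ins i z)) i'‖ ^ 2 := by positivity
    have h1 : 0 < 1 + ∑ j, ‖pmap A i i' z j‖ ^ 2 := by positivity
    show _ = Real.log (1 + ∑ j, ‖pmap A i i' z j‖ ^ 2) + _
    rw [← Real.log_mul h1.ne' h0.ne', Fin.sum_univ_succAbove _ i']
    congr 1
    rw [add_mul, one_mul, Finset.sum_mul]
    congr 1
    refine Finset.sum_congr rfl fun j _ => ?_
    unfold pmap
    rw [norm_div, div_pow, div_mul_cancel₀ _ h0.ne']
  have h3 : ContDiffAt ℝ 2 (fun z => (fun z : E n => Real.log (1 + ∑ j, ‖z j‖ ^ 2))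
      (pmap A i i' z)) y :=
    ContDiffAt.comp y hψ.contDiffAt
      ((M3b.contDiffAt_pmap (m := 2) A i i' h).restrict_scalars ℝ)
  have h4 : ContDiffAt ℝ 2 (fun z => Real.log (‖(A.mulVec (ins i z)) i'‖ ^ 2)) y := by
    refine ContDiffAt.log ?_ (by positivity)
    exact (((M3b.contDiff_mulVec_ins (m := 2) A i i').contDiffAt).restrict_scalars ℝ).norm_sq ℝ
  rw [lev_congr hc, lev_add h3 h4, lev_log_normSq hJ h, add_zero]
  have hD : ∀ (u : E n) (a : Fin n), fderiv ℂ (pmap A i i') y u a =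
      ∑ j, fderiv ℂ (pmap A i i') y (Pi.single j 1) a * u j := by
    intro u a
    have hu : u = ∑ j, u j • (Pi.single j (1 : ℂ) : E n) := by
      funext b
      simp [Finset.sum_apply, Pi.single_apply]
    conv_lhs => rw [hu]
    rw [map_sum, Finset.sum_apply]
    refine Finset.sum_congr rfl fun j _ => ?_
    rw [map_smul, Pi.smul_apply, smul_eq_mul, mul_comm]
  have hL : ∀ j k, lev (fun z => (fun z : E n => Real.log (1 + ∑ j, ‖z j‖ ^ 2))
      (pmap A i i' z)) y j k = ∑ a, ∑ l, fderiv ℂ (pmap A i i') y (Pi.single j 1) a *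
        lev (fun z : E n => Real.log (1 + ∑ j, ‖z j‖ ^ 2)) (pmap A i i' y) a l *
      (starRingEnd ℂ) (fderiv ℂ (pmap A i i') y (Pi.single k 1) l) := fun j k =>
    lev_comp hτ hψ.contDiffAt j k
  simp only [hL, hD v, hD w, hFS]
  generalize lev (fun z : E n => Real.log (1 + ∑ j, ‖z j‖ ^ 2)) (pmap A i i' y) = L
  simp only [map_sum, map_mul, Finset.mul_sum, Finset.sum_mul]
  have : ∀ F : Fin n → Fin n → Fin n → Fin n → ℂ,
      ∑ j, ∑ k, ∑ a, ∑ l, F j k a l = ∑ a, ∑ l, ∑ k, ∑ j, F j k a l := by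
    intro F
    have e1 : ∑ j, ∑ k, ∑ a, ∑ l, F j k a l = ∑ j, ∑ a, ∑ k, ∑ l, F j k a l :=
      Finset.sum_congr rfl fun j _ => Finset.sum_comm
    rw [e1, Finset.sum_comm]
    refine Finset.sum_congr rfl fun a _ => ?_
    have e2 : ∑ j, ∑ k, ∑ l, F j k a l = ∑ j, ∑ l, ∑ k, F j k a l :=
      Finset.sum_congr rfl fun j _ => Finset.sum_comm
    rw [e2, Finset.sum_comm]
    refine Finset.sum_congr rfl fun l _ => ?_
    exact Finset.sum_comm
  rw [this]
  refine Finset.sum_congr rfl fun a _ => Finset.sum_congr rfl fun l _ => ?_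
  refine Finset.sum_congr rfl fun k _ => Finset.sum_congr rfl fun j _ => ?_
  ring

end Pool.Agent.helper63.NU
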